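import Pool.Agent.H83.V.TW

/-!
# Board lvw_modules, row WLN: many dyadic blocks with many points (pure counting)
-/

set_option autoImplicit false

open MeasureTheory ProbabilityTheory Filter Topology Finset
open scoped Nat ENNReal

namespace Pool.Agent.H54.W

open Pool.Agent.H83.V

/-- weighted sums -/
noncomputable def Wt (a : ℕ → ℝ) (i : ℕ) : ℝ := (∑ l ∈ range (i + 1), a l * 2 ^ l) / 2 ^ i

theorem Wt_succ (a : ℕ → ℝ) (i : ℕ) : Wt a (i + 1) = Wt a i / 2 + a (i + 1) := by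
  unfold Wt
  rw [sum_range_succ, pow_succ]
  have h : (2 : ℝ) ^ i ≠ 0 := by positivity
  field_simp

theorem Wt_nonneg (a : ℕ → ℝ) (h : ∀ l, 0 ≤ a l) (i : ℕ) : 0 ≤ Wt a i := by
  unfold Wt
  refine div_nonneg (sum_nonneg fun l _ => mul_nonneg (h l) (by positivity)) (by positivity)

theorem geo_le (i : ℕ) : ∑ l ∈ range (i + 1), (2 : ℝ) ^ l ≤ 2 * 2 ^ i := by
  induction i with
  | zero => norm_num
  | succ i ih =>
    rw [sum_range_succ, pow_succ]
    linarith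

theorem Wt_le (a : ℕ → ℝ) (h : ∀ l, a l ≤ 1) (i : ℕ) : Wt a i ≤ 2 := by
  unfold Wt
  rw [div_le_iff₀ (by positivity)]
  refine le_trans (sum_le_sum fun l _ => ?_) (geo_le i)
  calc a l * 2 ^ l ≤ 1 * 2 ^ l := mul_le_mul_of_nonneg_right (h l) (by positivity)
    _ = 2 ^ l := one_mul _

theorem Wt_sum (a : ℕ → ℝ) (L k : ℕ) : ∑ j ∈ range (k + 1), Wt a (L + j) =
    2 * Wt a L + 2 * ∑ j ∈ range k, a (L + j + 1) - Wt a (L + k) := by
  induction k with
  | zero =>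
    simp
    ring
  | succ k ih =>
    rw [sum_range_succ, ih, sum_range_succ (fun j => a (L + j + 1)) k]
    have h : Wt a (L + (k + 1)) = Wt a (L + k) / 2 + a (L + k + 1) := Wt_succ a (L + k)
    rw [h]
    ring

/-- the counting function is bounded by the sum over the dyadic blocks -/
theorem cnt_le (P : ℕ → Prop) [DecidablePred P] (N : ℕ) :
    ((Icc 1 N).filter P).card ≤
      ∑ l ∈ range (Nat.log 2 N + 1), ((Ico (2 ^ l) (2 ^ (l + 1))).filter P).card := by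
  refine le_trans (card_le_card ?_) card_biUnion_le
  intro n hn
  rw [mem_filter, mem_Icc] at hn
  obtain ⟨⟨h1, h2⟩, h3⟩ := hn
  rw [mem_biUnion]
  refine ⟨Nat.log 2 n, ?_, ?_⟩
  · rw [mem_range]
    have := Nat.log_mono_right (b := 2) h2
    omega
  · rw [mem_filter, mem_Ico]
    exact ⟨⟨Nat.pow_log_le_self 2 (by omega), Nat.lt_pow_succ_log_self (by norm_num) n⟩, h3⟩

/-- the indicator of the good blocks -/
noncomputable def ai (P : ℕ → Prop) [DecidablePred P] (θ : ℝ) (l : ℕ) : ℝ :=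
  open Classical in
  if θ / 4 * 2 ^ l ≤ (((Ico (2 ^ l) (2 ^ (l + 1))).filter P).card : ℝ) then 1 else 0

theorem ai_nonneg (P : ℕ → Prop) [DecidablePred P] (θ : ℝ) (l : ℕ) : 0 ≤ ai P θ l := by
  unfold ai
  split_ifs <;> norm_num

theorem ai_le (P : ℕ → Prop) [DecidablePred P] (θ : ℝ) (l : ℕ) : ai P θ l ≤ 1 := by
  unfold ai
  split_ifs <;> norm_num

theorem blk_le (P : ℕ → Prop) [DecidablePred P] (θ : ℝ) (hθ : 0 < θ) (l : ℕ) :
    (((Ico (2 ^ l) (2 ^ (l + 1))).filter P).card : ℝ) ≤ θ / 4 * 2 ^ l + ai P θ l * 2 ^ l := by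
  have h2 : (0 : ℝ) < 2 ^ l := by positivity
  unfold ai
  split_ifs with h
  · have h1 : ((Ico (2 ^ l) (2 ^ (l + 1))).filter P).card ≤ 2 ^ l := by
      refine le_trans (card_filter_le _ _) ?_
      rw [Nat.card_Ico, pow_succ]
      omega
    have h3 : (((Ico (2 ^ l) (2 ^ (l + 1))).filter P).card : ℝ) ≤ 2 ^ l := by exact_mod_cast h1
    have h4 : 0 ≤ θ / 4 * 2 ^ l := by positivity
    linarith
  · push Not at h
    linarith

/-- the weight of a block which contains a bad scale -/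
theorem key (P : ℕ → Prop) [DecidablePred P] (θ : ℝ) (hθ : 0 < θ) (N : ℕ) (hN : 0 < N)
    (h : θ * N < (((Icc 1 N).filter P).card : ℝ)) :
    θ / 2 ≤ Wt (ai P θ) (Nat.log 2 N) := by
  set i := Nat.log 2 N with hi
  have h2 : (0 : ℝ) < 2 ^ i := by positivity
  have h3 : ((2 : ℝ) ^ i) ≤ N := by
    have := Nat.pow_log_le_self 2 (x := N) (by omega)
    exact_mod_cast this
  have h4 : (((Icc 1 N).filter P).card : ℝ) ≤
      ∑ l ∈ range (i + 1), (((Ico (2 ^ l) (2 ^ (l + 1))).filter P).card : ℝ) := by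
    exact_mod_cast cnt_le P N
  have h5 : ∑ l ∈ range (i + 1), (((Ico (2 ^ l) (2 ^ (l + 1))).filter P).card : ℝ) ≤
      θ / 4 * (2 * 2 ^ i) + ∑ l ∈ range (i + 1), ai P θ l * 2 ^ l := by
    calc ∑ l ∈ range (i + 1), (((Ico (2 ^ l) (2 ^ (l + 1))).filter P).card : ℝ)
        ≤ ∑ l ∈ range (i + 1), (θ / 4 * 2 ^ l + ai P θ l * 2 ^ l) :=
          sum_le_sum fun l _ => blk_le P θ hθ l
      _ = θ / 4 * ∑ l ∈ range (i + 1), (2 : ℝ) ^ l + ∑ l ∈ range (i + 1), ai P θ l * 2 ^ l := by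
          rw [sum_add_distrib, mul_sum]
      _ ≤ _ := by
          have := mul_le_mul_of_nonneg_left (geo_le i) (by positivity : (0 : ℝ) ≤ θ / 4)
          linarith
  have h6 : ∑ l ∈ range (i + 1), ai P θ l * 2 ^ l = Wt (ai P θ) i * 2 ^ i := by
    unfold Wt
    field_simp
  have h7 : θ * 2 ^ i ≤ θ * N := mul_le_mul_of_nonneg_left h3 hθ.le
  rw [h6] at h5
  by_contra hcon
  push Not at hcon
  have h8 : Wt (ai P θ) i * 2 ^ i < θ / 2 * 2 ^ i := mul_lt_mul_of_pos_right hcon h2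
  linarith

/-- the contribution of one dyadic block -/
theorem fib (P : ℕ → Prop) [DecidablePred P] (θ : ℝ) (hθ : 0 < θ) (B : Finset ℕ)
    (hB : ∀ N ∈ B, 0 < N ∧ θ * N < (((Icc 1 N).filter P).card : ℝ)) (i : ℕ) :
    ∑ N ∈ B.filter (fun N => Nat.log 2 N = i), θ / 2 * (1 / (N : ℝ)) ≤ Wt (ai P θ) i := by
  have h2 : (0 : ℝ) < 2 ^ i := by positivity
  have hW : 0 ≤ Wt (ai P θ) i := Wt_nonneg _ (ai_nonneg P θ) i
  have hsub : B.filter (fun N => Nat.log 2 N = i) ⊆ Ico (2 ^ i) (2 ^ (i + 1)) := by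
    intro N hN
    rw [mem_filter] at hN
    obtain ⟨h1, h3⟩ := hN
    have h4 := (hB N h1).1
    rw [mem_Ico, ← h3]
    exact ⟨Nat.pow_log_le_self 2 (by omega), Nat.lt_pow_succ_log_self (by norm_num) N⟩
  have hterm : ∀ N ∈ B.filter (fun N => Nat.log 2 N = i),
      θ / 2 * (1 / (N : ℝ)) ≤ Wt (ai P θ) i / 2 ^ i := by
    intro N hN
    have h1 := hsub hN
    rw [mem_Ico] at h1
    rw [mem_filter] at hN
    have h3 := key P θ hθ N (hB N hN.1).1 (hB N hN.1).2
    rw [hN.2] at h3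
    have h4 : ((2 : ℝ) ^ i) ≤ N := by exact_mod_cast h1.1
    rw [div_eq_mul_one_div (Wt (ai P θ) i)]
    exact mul_le_mul h3 (one_div_le_one_div_of_le h2 h4) (by positivity) hW
  calc ∑ N ∈ B.filter (fun N => Nat.log 2 N = i), θ / 2 * (1 / (N : ℝ))
      ≤ ∑ N ∈ B.filter (fun N => Nat.log 2 N = i), Wt (ai P θ) i / 2 ^ i := sum_le_sum hterm
    _ = ((B.filter (fun N => Nat.log 2 N = i)).card : ℝ) * (Wt (ai P θ) i / 2 ^ i) := by
        rw [sum_const, nsmul_eq_mul]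
    _ ≤ (2 : ℝ) ^ i * (Wt (ai P θ) i / 2 ^ i) := by
        refine mul_le_mul_of_nonneg_right ?_ (div_nonneg hW h2.le)
        have h5 := card_le_card hsub
        rw [Nat.card_Ico, pow_succ] at h5
        have h6 : (B.filter (fun N => Nat.log 2 N = i)).card ≤ 2 ^ i := by omega
        exact_mod_cast h6
    _ = Wt (ai P θ) i := by field_simp

/-- the final arithmetic -/
theorem wln_arith {θ c S W0 W1 A g : ℝ} (hθ : 0 < θ) (h1 : c ≤ S)
    (h2 : θ / 2 * S ≤ 2 * W0 + 2 * A - W1) (h3 : W0 ≤ 2) (h4 : 0 ≤ W1) (h5 : A ≤ g + 1) :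
    θ / 4 * c - 10 ≤ g := by
  have h6 : θ / 2 * c ≤ θ / 2 * S := mul_le_mul_of_nonneg_left h1 (by positivity)
  linarith

theorem main (P : ℕ → Prop) [DecidablePred P] (θ c : ℝ) (x y : ℕ) (hθ : 0 < θ) (hx : 0 < x)
    (hxy : x ≤ y) (B G : Finset ℕ)
    (hB : ∀ N, N ∈ B ↔ N ∈ Icc x y ∧ θ * N < (((Icc 1 N).filter P).card : ℝ))
    (hG : ∀ l, l ∈ G ↔ l ∈ range (y + 1) ∧ x ≤ 2 ^ l ∧ 2 ^ (l + 1) ≤ y ∧
      θ / 4 * 2 ^ l ≤ (((Ico (2 ^ l) (2 ^ (l + 1))).filter P).card : ℝ))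
    (hc : c ≤ ∑ N ∈ B, (1 : ℝ) / N) : θ / 4 * c - 10 ≤ (G.card : ℝ) := by
  set L := Nat.log 2 x with hL
  obtain ⟨k, hk⟩ : ∃ k, Nat.log 2 y = L + k := ⟨Nat.log 2 y - L, by
    have := Nat.log_mono_right (b := 2) hxy
    omega⟩
  have hBp : ∀ N ∈ B, 0 < N ∧ θ * N < (((Icc 1 N).filter P).card : ℝ) := by
    intro N hN
    rw [hB, mem_Icc] at hN
    exact ⟨by omega, hN.2⟩
  have hmap : ∀ N ∈ B, Nat.log 2 N ∈ (range (k + 1)).image (fun j => L + j) := by
    intro N hN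
    rw [hB, mem_Icc] at hN
    have h1 := Nat.log_mono_right (b := 2) hN.1.1
    have h2 := Nat.log_mono_right (b := 2) hN.1.2
    rw [mem_image]
    refine ⟨Nat.log 2 N - L, ?_, by omega⟩
    rw [mem_range]
    omega
  have hsum : θ / 2 * ∑ N ∈ B, (1 : ℝ) / N ≤ ∑ j ∈ range (k + 1), Wt (ai P θ) (L + j) := by
    rw [mul_sum, ← sum_fiberwise_of_maps_to hmap, sum_image (by
      intro a _ b _ hab
      have hab' : L + a = L + b := hab
      omega)]
    exact sum_le_sum fun j _ => fib P θ hθ B hBp (L + j)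
  rw [Wt_sum] at hsum
  refine wln_arith (W0 := Wt (ai P θ) L) (W1 := Wt (ai P θ) (L + k))
    (A := ∑ j ∈ range k, ai P θ (L + j + 1)) hθ hc hsum (Wt_le _ (ai_le P θ) L)
    (Wt_nonneg _ (ai_nonneg P θ) _) ?_
  -- the good blocks
  have hy2 : 2 ^ (L + k) ≤ y := by
    rw [← hk]
    exact Nat.pow_log_le_self 2 (by omega)
  have hx2 : x < 2 ^ (L + 1) := Nat.lt_pow_succ_log_self (by norm_num) x
  rcases k with _ | k
  · simp
    positivity
  rw [sum_range_succ]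
  have h1 : ∑ j ∈ range k, ai P θ (L + j + 1) ≤ (G.card : ℝ) := by
    classical
    have h2 : ∀ j ∈ range k, ai P θ (L + j + 1) =
        if θ / 4 * 2 ^ (L + j + 1) ≤
          (((Ico (2 ^ (L + j + 1)) (2 ^ (L + j + 1 + 1))).filter P).card : ℝ) then (1 : ℝ)
        else 0 := fun j _ => rfl
    rw [sum_congr rfl h2, ← sum_filter, sum_const, nsmul_eq_mul, mul_one]
    have h3 : ((range k).filter fun j => θ / 4 * 2 ^ (L + j + 1) ≤
        (((Ico (2 ^ (L + j + 1)) (2 ^ (L + j + 1 + 1))).filter P).card : ℝ)).card ≤ G.card := by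
      refine card_le_card_of_injOn (fun j => L + j + 1) ?_ ?_
      · intro j hj
        have hj' := mem_filter.1 (mem_coe.1 hj)
        have hjk := mem_range.1 hj'.1
        rw [mem_coe, hG]
        have h5 : 2 ^ (L + j + 1 + 1) ≤ y :=
          le_trans (Nat.pow_le_pow_right (by norm_num) (by omega)) hy2
        have h6 : x ≤ 2 ^ (L + j + 1) :=
          le_trans hx2.le (Nat.pow_le_pow_right (by norm_num) (by omega))
        refine ⟨?_, h6, h5, hj'.2⟩
        rw [mem_range]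
        have h7 : L + j + 1 + 1 < 2 ^ (L + j + 1 + 1) := Nat.lt_two_pow_self
        have h8 : L + j + 1 + 1 < y := lt_of_lt_of_le h7 h5
        change L + j + 1 < y + 1
        exact lt_trans (Nat.lt_succ_self _) (lt_trans h8 (Nat.lt_succ_self y))
      · intro a _ b _ hab
        have hab' : L + a + 1 = L + b + 1 := hab
        omega
    exact_mod_cast h3
  have h2 := ai_le P θ (L + k + 1)
  linarith

theorem pf_WLN : T_WLN := by
  intro P θ c x y hθ hx hxy hc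
  classical
  refine main P θ c x y hθ hx hxy _ _ (fun N => ?_) (fun l => ?_) hc
  · rw [mem_filter]
  · rw [mem_filter]

end Pool.Agent.H54.W
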